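import Mathlib

/-!
# Extremal pebbling configurations of fans need non-simplicial vertices

For `m ≥ 3` and `t ≥ 1` let `G` be the fan with `m + 1` vertices (a path with `m` vertices and a
vertex `r` adjacent to all of them) and let the target be `t` pebbles on `r`. The extremal
configurations have `2 (t - 1) + m` pebbles, but the unsolvable configurations that are supported
on simplicial vertices have at most `2 t` pebbles.
-/

set_option autoImplicit false

open Finset

namespace Pool.Agent.Results.MP_294a3d_co.Fans

section definitions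

variable {V : Type} [DecidableEq V]

/-- A pebbling step: two pebbles are removed from `u` and one pebble is added to the adjacent
vertex `v`. -/
def Step (G : SimpleGraph V) (C C' : V → ℕ) : Prop :=
  ∃ u v, G.Adj u v ∧ 2 ≤ C u ∧
    C' = Function.update (Function.update C u (C u - 2)) v (C v + 1)

/-- `C` is `D`-solvable. -/
def Solvable (G : SimpleGraph V) (D C : V → ℕ) : Prop :=
  ∃ C', Relation.ReflTransGen (Step G) C C' ∧ ∀ v, D v ≤ C' v

/-- The number of the pebbles. -/
def size [Fintype V] (C : V → ℕ) : ℕ := ∑ v, C v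

/-- `C` is `D`-maximal. -/
def IsMaximal (G : SimpleGraph V) (D C : V → ℕ) : Prop :=
  ¬ Solvable G D C ∧ ∀ v, Solvable G D (Function.update C v (C v + 1))

/-- `C` is `D`-extremal. -/
def IsExtremal [Fintype V] (G : SimpleGraph V) (D C : V → ℕ) : Prop :=
  IsMaximal G D C ∧ ∀ C', IsMaximal G D C' → size C' ≤ size C

/-- `v` is a simplicial vertex. -/
def IsSimplicial (G : SimpleGraph V) (v : V) : Prop :=
  ∀ u w, G.Adj v u → G.Adj v w → u ≠ w → G.Adj u w

/-- `G` is chordal: it has no induced cycle `c 0, …, c (n - 1)` of length `n ≥ 4`. -/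
def IsChordal (G : SimpleGraph V) : Prop :=
  ∀ n, 4 ≤ n → ¬ ∃ c : ZMod n → V, Function.Injective c ∧
    ∀ i j, G.Adj (c i) (c j) ↔ (j = i + 1 ∨ i = j + 1)

end definitions

/-- The fan: the path `some 0, …, some (m - 1)` and the vertex `none` adjacent to all others. -/
def fan (m : ℕ) : SimpleGraph (Option (Fin m)) :=
  SimpleGraph.fromRel fun x y => x = none ∨ ∃ i j : Fin m, x = some i ∧ y = some j ∧
    (i : ℕ) + 1 = j

variable {m : ℕ}

theorem adj_none (i : Fin m) : (fan m).Adj none (some i) := by
  simp [fan]

theorem adj_some (i j : Fin m) :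
    (fan m).Adj (some i) (some j) ↔ (i : ℕ) + 1 = j ∨ (j : ℕ) + 1 = i := by
  unfold fan
  rw [SimpleGraph.fromRel_adj]
  constructor
  · rintro ⟨-, h | h⟩
    · rcases h with h | ⟨a, b, h1, h2, h3⟩
      · exact absurd h (by simp)
      · rw [Option.some_inj] at h1 h2; subst h1 h2; exact Or.inl h3
    · rcases h with h | ⟨a, b, h1, h2, h3⟩
      · exact absurd h (by simp)
      · rw [Option.some_inj] at h1 h2; subst h1 h2; exact Or.inr h3
  · intro h
    refine ⟨?_, ?_⟩
    · rw [Ne, Option.some_inj]
      rintro rfl
      omega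
    · rcases h with h | h
      · exact Or.inl (Or.inr ⟨i, j, rfl, rfl, h⟩)
      · exact Or.inr (Or.inr ⟨j, i, rfl, rfl, h⟩)

theorem connected_fan : (fan m).Connected := by
  rw [SimpleGraph.connected_iff_exists_forall_reachable]
  refine ⟨none, fun w => ?_⟩
  cases w with
  | none => rfl
  | some i => exact (adj_none i).reachable

/-- The weight of `x` pebbles on `v`. -/
def h : Option (Fin m) → ℕ → ℕ
  | none, x => x
  | some _, x => x / 2

/-- The largest number of pebbles that can be moved to `none`. -/
def f (C : Option (Fin m) → ℕ) : ℕ := ∑ v, h v (C v)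

theorem sum_update (g : Option (Fin m) → ℕ → ℕ) (C : Option (Fin m) → ℕ) (u : Option (Fin m))
    (a : ℕ) : ∑ v, g v (Function.update C u a v) + g u (C u) = ∑ v, g v (C v) + g u a := by
  rw [← Finset.add_sum_erase _ _ (mem_univ u), ← Finset.add_sum_erase _ _ (mem_univ u),
    Function.update_self]
  have : ∑ x ∈ univ.erase u, g x (Function.update C u a x) = ∑ x ∈ univ.erase u, g x (C x) :=
    Finset.sum_congr rfl fun x hx => by
      rw [Function.update_of_ne (Finset.ne_of_mem_erase hx)]
  rw [this]
  ring

theorem step_sum (g : Option (Fin m) → ℕ → ℕ) (C : Option (Fin m) → ℕ) {u v : Option (Fin m)}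
    (huv : u ≠ v) :
    ∑ x, g x (Function.update (Function.update C u (C u - 2)) v (C v + 1) x) + g v (C v) +
      g u (C u) = ∑ x, g x (C x) + g u (C u - 2) + g v (C v + 1) := by
  have h1 := sum_update g (Function.update C u (C u - 2)) v (C v + 1)
  have h2 := sum_update g C u (C u - 2)
  rw [Function.update_of_ne huv.symm] at h1
  omega

theorem f_step {C C' : Option (Fin m) → ℕ} (hs : Step (fan m) C C') : f C' ≤ f C := by
  obtain ⟨u, v, huv, h2, rfl⟩ := hs
  have h1 := step_sum h C huv.ne
  unfold f
  cases u with
  | none =>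
    cases v with
    | none => exact absurd rfl huv.ne
    | some j => simp only [h] at h1 ⊢; omega
  | some i =>
    cases v with
    | none => simp only [h] at h1 ⊢; omega
    | some j => simp only [h] at h1 ⊢; omega

theorem f_reach {C C' : Option (Fin m) → ℕ} (hs : Relation.ReflTransGen (Step (fan m)) C C') :
    f C' ≤ f C := by
  induction hs with
  | refl => exact le_rfl
  | tail _ h ih => exact (f_step h).trans ih

theorem none_le_f (C : Option (Fin m) → ℕ) : C none ≤ f C := by
  unfold f
  exact Finset.single_le_sum (f := fun v => h v (C v)) (fun _ _ => Nat.zero_le _) (mem_univ none)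

/-- The target: `t` pebbles on `none`. -/
def target (m t : ℕ) : Option (Fin m) → ℕ := fun v => if v = none then t else 0

theorem solvable_of_le (t : ℕ) : ∀ (s : ℕ) (C : Option (Fin m) → ℕ), size C = s → t ≤ f C →
    Solvable (fan m) (target m t) C := by
  intro s
  induction s with
  | zero =>
    intro C hC hf
    refine ⟨C, Relation.ReflTransGen.refl, ?_⟩
    have h0 : ∀ v, C v = 0 := by
      intro v
      unfold size at hC
      rw [Finset.sum_eq_zero_iff] at hC
      exact hC v (mem_univ v)
    have h1 : f C = 0 := by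
      unfold f
      refine Finset.sum_eq_zero fun v _ => ?_
      rw [h0]
      cases v <;> simp [h]
    intro v
    unfold target
    split_ifs <;> omega
  | succ s ih =>
    intro C hC hf
    by_cases hn : t ≤ C none
    · refine ⟨C, Relation.ReflTransGen.refl, fun v => ?_⟩
      unfold target
      split_ifs with hv
      · rw [hv]; exact hn
      · exact Nat.zero_le _
    · have hex : ∃ i : Fin m, 2 ≤ C (some i) := by
        by_contra hc
        push Not at hc
        apply hn
        have : f C = C none := by
          unfold f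
          rw [Fintype.sum_option]
          have : ∑ i : Fin m, h (some i) (C (some i)) = 0 :=
            Finset.sum_eq_zero fun i _ => by
              have := hc i
              simp only [h]
              omega
          rw [this]
          simp [h]
        omega
      obtain ⟨i, hi⟩ := hex
      have hne : (some i : Option (Fin m)) ≠ none := by simp
      have h1 := step_sum (fun _ x => x) C hne
      have h2 := step_sum h C hne
      have e1 : ∀ x, h (some i) x = x / 2 := fun _ => rfl
      have e2 : ∀ x, h (none : Option (Fin m)) x = x := fun _ => rfl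
      rw [e1, e1, e2, e2] at h2
      obtain ⟨C', hC', hD⟩ := ih (Function.update (Function.update C (some i) (C (some i) - 2))
        none (C none + 1)) (by unfold size at hC ⊢; omega) (by unfold f at hf ⊢; omega)
      exact ⟨C', Relation.ReflTransGen.head ⟨some i, none, (adj_none i).symm, hi, rfl⟩ hC', hD⟩

theorem solvable_iff (t : ℕ) (C : Option (Fin m) → ℕ) :
    Solvable (fan m) (target m t) C ↔ t ≤ f C := by
  constructor
  · rintro ⟨C', hC', hD⟩
    have h1 := hD none
    unfold target at h1
    rw [if_pos rfl] at h1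
    exact h1.trans ((none_le_f C').trans (f_reach hC'))
  · exact solvable_of_le t _ C rfl

theorem size_le (C : Option (Fin m) → ℕ) : size C ≤ 2 * f C + m := by
  unfold size f
  rw [Fintype.sum_option, Fintype.sum_option]
  have h1 : ∑ i : Fin m, C (some i) ≤ ∑ i : Fin m, (2 * h (some i) (C (some i)) + 1) :=
    Finset.sum_le_sum fun i _ => by simp only [h]; omega
  rw [Finset.sum_add_distrib, ← Finset.mul_sum, Finset.sum_const, Finset.card_univ,
    Fintype.card_fin, smul_eq_mul, mul_one] at h1
  simp only [h] at h1 ⊢
  omega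

/-- The extremal configuration: `2 t - 1` pebbles on `some 0` and one pebble on every other vertex
of the path. -/
def ext (m t : ℕ) : Option (Fin m) → ℕ
  | none => 0
  | some i => if (i : ℕ) = 0 then 2 * t - 1 else 1

theorem sum_ext (m t : ℕ) (hm : 3 ≤ m) (ht : 1 ≤ t) (g : ℕ → ℕ) :
    ∑ i : Fin m, g (ext m t (some i)) = g (2 * t - 1) + (m - 1) * g 1 := by
  obtain ⟨k, rfl⟩ : ∃ k, m = k + 1 := ⟨m - 1, by omega⟩
  rw [Fin.sum_univ_succ]
  simp [ext]

theorem size_ext (m t : ℕ) (hm : 3 ≤ m) (ht : 1 ≤ t) : size (ext m t) = 2 * (t - 1) + m := by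
  unfold size
  rw [Fintype.sum_option, sum_ext m t hm ht (fun x => x)]
  simp only [ext]
  omega

theorem f_ext (m t : ℕ) (hm : 3 ≤ m) (ht : 1 ≤ t) : f (ext m t) = t - 1 := by
  unfold f
  rw [Fintype.sum_option]
  simp only [h]
  rw [sum_ext m t hm ht (fun x => x / 2)]
  simp only [ext]
  omega

theorem isMaximal_ext (t : ℕ) (hm : 3 ≤ m) (ht : 1 ≤ t) :
    IsMaximal (fan m) (target m t) (ext m t) := by
  constructor
  · rw [solvable_iff, f_ext m t hm ht]
    omega
  · intro v
    rw [solvable_iff]
    have h1 := sum_update h (ext m t) v (ext m t v + 1)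
    have h2 := f_ext m t hm ht
    unfold f at h2 ⊢
    cases v with
    | none => simp only [h] at h1 h2 ⊢; omega
    | some i =>
      simp only [h] at h1 h2 ⊢
      by_cases hi : (i : ℕ) = 0
      · simp only [ext, hi, if_true] at h1 h2 ⊢
        omega
      · simp only [ext, hi, if_false] at h1 h2 ⊢
        omega

theorem isExtremal_ext (t : ℕ) (hm : 3 ≤ m) (ht : 1 ≤ t) :
    IsExtremal (fan m) (target m t) (ext m t) := by
  refine ⟨isMaximal_ext t hm ht, ?_⟩
  rintro C ⟨hC, -⟩
  rw [solvable_iff] at hC
  rw [size_ext m t hm ht]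
  have := size_le C
  omega

theorem simplicial_ends (hm : 3 ≤ m) (v : Option (Fin m)) (hv : IsSimplicial (fan m) v) :
    v = some ⟨0, by omega⟩ ∨ v = some ⟨m - 1, by omega⟩ := by
  cases v with
  | none =>
    exfalso
    have := hv (some ⟨0, by omega⟩) (some ⟨2, by omega⟩) (adj_none _) (adj_none _) (by simp)
    rw [adj_some] at this
    simp at this
  | some i =>
    by_contra hc
    push Not at hc
    have h0 : (i : ℕ) ≠ 0 := fun h => hc.1 (by rw [Option.some_inj]; exact Fin.ext h)
    have h1 : (i : ℕ) ≠ m - 1 := fun h => hc.2 (by rw [Option.some_inj]; exact Fin.ext h)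
    have hi := i.isLt
    have := hv (some ⟨i - 1, by omega⟩) (some ⟨i + 1, by omega⟩)
      (by rw [adj_some]; simp; omega) (by rw [adj_some]; simp)
      (by simp)
    rw [adj_some] at this
    simp at this
    omega

theorem size_simplicial (t : ℕ) (hm : 3 ≤ m) (ht : 1 ≤ t) (C : Option (Fin m) → ℕ)
    (hC : ¬ Solvable (fan m) (target m t) C) (hs : ∀ v, C v ≠ 0 → IsSimplicial (fan m) v) :
    size C ≤ 2 * t := by
  rw [solvable_iff] at hC
  push Not at hC
  let a : Option (Fin m) := some ⟨0, by omega⟩
  let b : Option (Fin m) := some ⟨m - 1, by omega⟩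
  have hab : a ≠ b := by
    simp only [a, b, Ne, Option.some_inj, Fin.mk.injEq]
    omega
  have hz : ∀ g : Option (Fin m) → ℕ → ℕ, (∀ v, g v 0 = 0) →
      ∑ v, g v (C v) = g a (C a) + g b (C b) := by
    intro g hg
    rw [← Finset.sum_pair (f := fun v => g v (C v)) hab]
    symm
    refine Finset.sum_subset (Finset.subset_univ _) fun v _ hv => ?_
    rw [mem_insert, mem_singleton] at hv
    have : C v = 0 := by
      by_contra hne
      exact hv (simplicial_ends hm v (hs v hne))
    rw [this, hg]
  have h1 := hz (fun _ x => x) (fun _ => rfl)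
  have h2 := hz h (fun v => by cases v <;> simp [h])
  unfold size
  unfold f at hC
  rw [h2] at hC
  rw [h1]
  simp only [h, a, b] at hC ⊢
  omega

theorem isChordal_fan : IsChordal (fan m) := by
  rintro n hn ⟨c, hinj, hc⟩
  have : NeZero n := ⟨by omega⟩
  have h1 : (1 : ZMod n) ≠ 0 := by
    have := (ZMod.natCast_eq_zero_iff 1 n).not.mpr (fun h => by have := Nat.le_of_dvd one_pos h; omega)
    exact_mod_cast this
  have h2 : (2 : ZMod n) ≠ 0 := by
    have := (ZMod.natCast_eq_zero_iff 2 n).not.mpr (fun h => by have := Nat.le_of_dvd two_pos h; omega)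
    exact_mod_cast this
  have h3 : (3 : ZMod n) ≠ 0 := by
    have := (ZMod.natCast_eq_zero_iff 3 n).not.mpr
      (fun h => by have := Nat.le_of_dvd three_pos h; omega)
    exact_mod_cast this
  have hne : ∀ i, c i ≠ none := by
    intro i hi
    have h4 : c (i + 2) ≠ none := by
      intro h
      apply h2
      have := hinj (h.trans hi.symm)
      simpa using this
    obtain ⟨j, hj⟩ := Option.ne_none_iff_exists'.mp h4
    have h5 : (fan m).Adj (c i) (c (i + 2)) := by rw [hi, hj]; exact adj_none j
    rw [hc] at h5
    rcases h5 with h5 | h5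
    · apply h1
      have : (1 : ZMod n) = (i + 2) - (i + 1) := by ring
      rw [this, h5, sub_self]
    · apply h3
      have : (3 : ZMod n) = (i + 2 + 1) - i := by ring
      rw [this, ← h5, sub_self]
  have hl : ∀ i, ∃ x : Fin m, c i = some x := fun i => Option.ne_none_iff_exists'.mp (hne i)
  choose l hl using hl
  obtain ⟨i, hi⟩ := Finite.exists_max (fun i => (l i : ℕ))
  have a1 : (fan m).Adj (c i) (c (i + 1)) := (hc _ _).mpr (Or.inl rfl)
  have a2 : (fan m).Adj (c i) (c (i - 1)) := (hc _ _).mpr (Or.inr (by ring))
  rw [hl, hl, adj_some] at a1 a2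
  have b1 := hi (i + 1)
  have b2 := hi (i - 1)
  have h6 : l (i + 1) = l (i - 1) := by
    apply Fin.ext
    omega
  have h7 : c (i + 1) = c (i - 1) := by rw [hl, hl, h6]
  have h8 := hinj h7
  apply h2
  have : (2 : ZMod n) = (i + 1) - (i - 1) := by ring
  rw [this, h8, sub_self]

/-- For `m ≥ 3` and `t ≥ 1`, for the connected chordal graph `fan m` and the target of `t` pebbles on
the vertex `none`, there is an extremal configuration with `2 (t - 1) + m` pebbles, while every
unsolvable configuration supported on simplicial vertices has at most `2 t` pebbles. -/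
theorem result (m t : ℕ) (hm : 3 ≤ m) (ht : 1 ≤ t) :
    (fan m).Connected ∧ IsChordal (fan m) ∧
    (∃ C, IsExtremal (fan m) (target m t) C ∧ size C = 2 * (t - 1) + m) ∧
    ∀ C, ¬ Solvable (fan m) (target m t) C → (∀ v, C v ≠ 0 → IsSimplicial (fan m) v) →
      size C ≤ 2 * t :=
  ⟨connected_fan, isChordal_fan, ⟨ext m t, isExtremal_ext t hm ht, size_ext m t hm ht⟩,
    fun C h1 h2 => size_simplicial t hm ht C h1 h2⟩

end Pool.Agent.Results.MP_294a3d_co.Fans
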